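import Mathlib

namespace Pool.Agent.Results.MP_ff06a2_an.Counter

open MeasureTheory Set

/-- `ℝ⁴` -/
abbrev E := EuclideanSpace ℝ (Fin 4)

/-- Admissible pairs of the dual problem. -/
def Adm (ρ μ : Measure E) (c : E × E → ℝ) (φ ψ : E → ℝ) : Prop :=
  Integrable φ ρ ∧ Integrable ψ μ ∧ ∀ x y, φ x + ψ y ≤ c (x, y)

/-- Optimal pairs (Kantorovich potentials). -/
def Opt (ρ μ : Measure E) (c : E × E → ℝ) (φ ψ : E → ℝ) : Prop :=
  Adm ρ μ c φ ψ ∧ ∀ φ' ψ', Adm ρ μ c φ' ψ' →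
    ∫ x, φ' x ∂ρ + ∫ y, ψ' y ∂μ ≤ ∫ x, φ x ∂ρ + ∫ y, ψ y ∂μ

/-- The standing hypotheses (H). -/
def HypH (ρ μ : Measure E) (c : E × E → ℝ) : Prop :=
  Bornology.IsBounded μ.support ∧ ContDiff ℝ 1 c ∧
    ∃ a b : E → ℝ, UpperSemicontinuous a ∧ UpperSemicontinuous b ∧ Integrable a ρ ∧
      Integrable b μ ∧ ∀ x y, |c (x, y)| ≤ a x + b y

/-- The cost `|x - y|^(4/3)`. -/
noncomputable def cost (p : E × E) : ℝ := ‖p.1 - p.2‖ ^ (4 / 3 : ℝ)

noncomputable def tm (j : ℕ) (t : ℝ) : ℂ :=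
  (1 / 64) ^ j * Complex.exp (Complex.I * ((256 ^ j * t : ℝ) : ℂ))

theorem tm_norm (j : ℕ) (t : ℝ) : ‖tm j t‖ = (1 / 64) ^ j := by
  rw [tm, norm_mul, Complex.norm_exp_I_mul_ofReal]; simp

theorem tm_sub (j : ℕ) (t s : ℝ) : ‖tm j t - tm j s‖ =
    (1 / 64) ^ j * ‖Complex.exp (Complex.I * ((256 ^ j * (t - s) : ℝ) : ℂ)) - 1‖ := by
  have : tm j t - tm j s =
      tm j s * (Complex.exp (Complex.I * ((256 ^ j * (t - s) : ℝ) : ℂ)) - 1) := by
    rw [mul_sub, mul_one, tm, tm, mul_assoc, ← Complex.exp_add]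
    congr 3
    push_cast; ring
  rw [this, norm_mul, tm_norm]

theorem geo : Summable fun j : ℕ => (1 / 64 : ℝ) ^ j :=
  summable_geometric_of_lt_one (by norm_num) (by norm_num)

theorem tm_sum (t : ℝ) : Summable fun j => tm j t :=
  Summable.of_norm_bounded geo fun j => (tm_norm j t).le

noncomputable def F (t : ℝ) : ℂ := ∑' j, tm j t

theorem F_cont : Continuous F :=
  continuous_tsum (fun j => by unfold tm; fun_prop) geo fun j t => (tm_norm j t).le

theorem low (u : ℝ) (h : |u| ≤ 1) :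
    23 / 24 * |u| ≤ ‖Complex.exp (Complex.I * (u : ℂ)) - 1‖ := by
  rw [Complex.norm_exp_I_mul_ofReal_sub_one, Real.norm_eq_abs]
  have h0 := abs_nonneg u
  have h1 := Real.sin_ge_sub_cube (x := |u| / 2) (by positivity)
  have h2 : 2 * Real.sin (|u| / 2) ≤ |2 * Real.sin (u / 2)| := by
    rcases abs_choice u with e | e <;> rw [e]
    · exact le_abs_self _
    · rw [neg_div, Real.sin_neg, mul_neg]; exact neg_le_abs _
  nlinarith [mul_nonneg h0 (mul_nonneg h0 h0), mul_le_mul h h h0 zero_le_one,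
    mul_le_mul_of_nonneg_left (mul_le_mul h h h0 zero_le_one) h0]

theorem F_low (k : ℕ) (t s : ℝ) (h1 : 1 / 16 ≤ 256 ^ k * |t - s|) (h2 : 256 ^ k * |t - s| ≤ 1) :
    1 / 216 * (1 / 64) ^ k ≤ ‖F t - F s‖ := by
  have hs := (tm_sum t).sub (tm_sum s)
  have e : F t - F s = (∑ j ∈ Finset.range k, (tm j t - tm j s) + (tm k t - tm k s)) +
      ∑' j, (tm (j + (k + 1)) t - tm (j + (k + 1)) s) := by
    rw [F, F, ← (tm_sum t).tsum_sub (tm_sum s), ← hs.sum_add_tsum_nat_add (k + 1),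
      Finset.sum_range_succ]
  have habs : ∀ j : ℕ, |(256 : ℝ) ^ j * (t - s)| = 256 ^ j * |t - s| := fun j => by
    rw [abs_mul, abs_of_pos (by positivity)]
  have a1 : ‖∑ j ∈ Finset.range k, (tm j t - tm j s)‖ ≤ 4 ^ k * |t - s| / 3 := by
    refine (norm_sum_le _ _).trans ?_
    clear h1 h2 e
    induction k with
    | zero => simp; positivity
    | succ k ih =>
      rw [Finset.sum_range_succ, tm_sub k]
      have := Real.norm_exp_I_mul_ofReal_sub_one_le (x := 256 ^ k * (t - s))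
      rw [Real.norm_eq_abs, habs] at this
      have h3 := mul_le_mul_of_nonneg_left this (show (0 : ℝ) ≤ (1 / 64) ^ k by positivity)
      rw [← mul_assoc, ← mul_pow, show (1 / 64 * 256 : ℝ) = 4 by norm_num] at h3
      rw [pow_succ]
      linarith
  have a2 : (1 / 64) ^ k * (23 / 24 * (256 ^ k * |t - s|)) ≤ ‖tm k t - tm k s‖ := by
    rw [tm_sub, ← habs]
    exact mul_le_mul_of_nonneg_left (low _ (by rwa [habs])) (by positivity)
  have a3 : ‖∑' j, (tm (j + (k + 1)) t - tm (j + (k + 1)) s)‖ ≤ (1 / 64) ^ k * (2 / 63) := by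
    have hg := (hasSum_geometric_of_lt_one (r := (1 / 64 : ℝ)) (by norm_num)
      (by norm_num)).mul_left (2 * (1 / 64) ^ (k + 1))
    refine (tsum_of_norm_bounded hg fun j => ?_).trans (le_of_eq (by rw [pow_succ]; ring))
    refine (norm_sub_le _ _).trans (le_of_eq ?_)
    rw [tm_norm, tm_norm, pow_add]; ring
  have a4 : (4 : ℝ) ^ k * |t - s| = (1 / 64) ^ k * (256 ^ k * |t - s|) := by
    rw [← mul_assoc, ← mul_pow]; norm_num
  have a5 : ‖tm k t - tm k s‖ ≤ ‖F t - F s‖ + ‖∑ j ∈ Finset.range k, (tm j t - tm j s)‖ +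
      ‖∑' j, (tm (j + (k + 1)) t - tm (j + (k + 1)) s)‖ := by
    have : tm k t - tm k s = F t - F s - ∑ j ∈ Finset.range k, (tm j t - tm j s) -
        ∑' j, (tm (j + (k + 1)) t - tm (j + (k + 1)) s) := by rw [e]; ring
    rw [this]
    exact (norm_sub_le _ _).trans (add_le_add (norm_sub_le _ _) le_rfl)
  have hp : (0 : ℝ) < (1 / 64) ^ k := by positivity
  rw [a4] at a1
  nlinarith [mul_le_mul_of_nonneg_left h1 hp.le]

noncomputable def γ (t : ℝ) : E := !₂[(F t).re, (F t).im, (F (16 * t)).re, (F (16 * t)).im]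

theorem γ_cont : Continuous γ := by
  have := F_cont
  unfold γ
  fun_prop

theorem γ_sq (t s : ℝ) : ‖γ t - γ s‖ ^ 2 = ‖F t - F s‖ ^ 2 + ‖F (16 * t) - F (16 * s)‖ ^ 2 := by
  rw [EuclideanSpace.real_norm_sq_eq, Complex.sq_norm, Complex.sq_norm, Complex.normSq_apply,
    Complex.normSq_apply]
  simp [γ, Fin.sum_univ_four]
  ring

theorem γ_low (t s : ℝ) (h : |t - s| ≤ 1) : 1 / 1296 * |t - s| ≤ cost (γ t, γ s) := by
  rcases (abs_nonneg (t - s)).eq_or_lt with h0 | h0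
  · rw [← h0, mul_zero]; exact Real.rpow_nonneg (norm_nonneg _) _
  obtain ⟨k, k1, k2⟩ := exists_nat_pow_near_of_lt_one h0 h (y := 1 / 256) (by norm_num)
    (by norm_num)
  have hk : (256 : ℝ) ^ k * (1 / 256) ^ k = 1 := by rw [← mul_pow]; norm_num
  have hp : (0 : ℝ) < 256 ^ k := by positivity
  have u1 : 256 ^ k * |t - s| ≤ 1 := hk ▸ mul_le_mul_of_nonneg_left k2 hp.le
  have u2 : 1 / 256 ≤ 256 ^ k * |t - s| := by
    have := mul_le_mul_of_nonneg_left k1.le hp.le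
    rwa [pow_succ, ← mul_assoc, hk, one_mul] at this
  have r : 1 / 216 * (1 / 64) ^ k ≤ ‖γ t - γ s‖ := by
    have q := γ_sq t s
    rcases le_total (1 / 16) (256 ^ k * |t - s|) with c | c
    · refine (F_low k t s c u1).trans ((sq_le_sq₀ (norm_nonneg _) (norm_nonneg _)).1 ?_)
      nlinarith [sq_nonneg ‖F (16 * t) - F (16 * s)‖]
    · have e : |16 * t - 16 * s| = 16 * |t - s| := by
        rw [← mul_sub, abs_mul, abs_of_pos (by norm_num : (0 : ℝ) < 16)]
      refine (F_low k (16 * t) (16 * s) (by rw [e]; linarith) (by rw [e]; linarith)).trans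
        ((sq_le_sq₀ (norm_nonneg _) (norm_nonneg _)).1 ?_)
      nlinarith [sq_nonneg ‖F t - F s‖]
  have e3 : (1 / 216 * (1 / 64) ^ k : ℝ) = (1 / 6 * (1 / 4) ^ k) ^ 3 := by
    rw [mul_pow, ← pow_mul, mul_comm k, pow_mul]; norm_num
  have e4 : (1 / 1296 * (1 / 256) ^ k : ℝ) = (1 / 6 * (1 / 4) ^ k) ^ 4 := by
    rw [mul_pow, ← pow_mul, mul_comm k, pow_mul]; norm_num
  have e5 : (((1 / 6 * (1 / 4) ^ k : ℝ)) ^ 3) ^ (4 / 3 : ℝ) = (1 / 6 * (1 / 4) ^ k) ^ 4 := by
    rw [← Real.rpow_natCast _ 3, ← Real.rpow_mul (by positivity), ← Real.rpow_natCast _ 4]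
    norm_num
  have := Real.rpow_le_rpow (by positivity) r (show (0 : ℝ) ≤ 4 / 3 by norm_num)
  rw [e3, e5, ← e4] at this
  exact le_trans (by linarith) this

theorem ab {t s : ℝ} (ht : t ∈ Ioo (0 : ℝ) 1) (hs : s ∈ Ioo (0 : ℝ) 1) : |t - s| ≤ 1 :=
  abs_le.2 ⟨by linarith [ht.1, hs.2], by linarith [ht.2, hs.1]⟩

theorem cost_self (x : E) : cost (x, x) = 0 := by simp [cost]

theorem cost_nonneg (p : E × E) : 0 ≤ cost p := Real.rpow_nonneg (norm_nonneg _) _

theorem γ_inj : InjOn γ (Ioo 0 1) := fun t ht s hs e => by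
  have := γ_low t s (ab ht hs)
  rw [e, cost_self] at this
  have h2 : |t - s| = 0 := le_antisymm (by linarith) (abs_nonneg _)
  exact sub_eq_zero.1 (abs_eq_zero.1 h2)

noncomputable def ρ : Measure E := (volume.restrict (Ioo 0 1)).map γ

instance : IsProbabilityMeasure (volume.restrict (Ioo (0 : ℝ) 1)) := ⟨by simp⟩

instance : IsProbabilityMeasure ρ :=
  Measure.isProbabilityMeasure_map γ_cont.measurable.aemeasurable

theorem supp1 : γ '' Ioo 0 1 ⊆ ρ.support := by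
  rintro _ ⟨t, ht, rfl⟩
  refine (Measure.mem_support_iff_forall _).2 fun U hU => ?_
  refine lt_of_lt_of_le ?_ (Measure.le_map_apply γ_cont.measurable.aemeasurable U)
  rw [Measure.restrict_apply' measurableSet_Ioo]
  exact Measure.measure_pos_of_mem_nhds _ (Filter.inter_mem (γ_cont.continuousAt hU)
    (isOpen_Ioo.mem_nhds ht))

theorem aeρ {p : E → Prop} (hp : MeasurableSet {x | p x}) (h : ∀ t ∈ Ioo (0 : ℝ) 1, p (γ t)) :
    ∀ᵐ x ∂ρ, p x :=
  (ae_map_iff γ_cont.measurable.aemeasurable hp).2 (ae_restrict_of_forall_mem measurableSet_Ioo h)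

theorem supp2 {S : Set E} (hS : IsClosed S) (h : γ '' Ioo 0 1 ⊆ S) : ρ.support ⊆ S :=
  Measure.support_subset_of_isClosed hS (aeρ hS.measurableSet fun t ht => h ⟨t, ht, rfl⟩)

theorem int_cont {a : E → ℝ} (ha : Continuous a) : Integrable a ρ :=
  (integrable_map_measure ha.aestronglyMeasurable γ_cont.measurable.aemeasurable).2
    (((ha.comp γ_cont).continuousOn.integrableOn_compact isCompact_Icc).mono_set
      Ioo_subset_Icc_self)

theorem opt_of {φ ψ : E → ℝ} (h : Adm ρ ρ cost φ ψ) (h0 : ∀ᵐ x ∂ρ, φ x + ψ x = 0) :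
    Opt ρ ρ cost φ ψ := by
  refine ⟨h, fun φ' ψ' h' => ?_⟩
  rw [← integral_add h.1 h.2.1, ← integral_add h'.1 h'.2.1, integral_congr_ae h0]
  simp only [integral_zero]
  exact integral_nonpos fun x => (h'.2.2 x x).trans (cost_self x).le

noncomputable def ex (u v : ℝ) : E → ℝ :=
  Function.extend ((Ioo (0 : ℝ) 1).domRestrict γ) (fun t => u * t) (fun _ => v)

theorem emb : MeasurableEmbedding ((Ioo (0 : ℝ) 1).domRestrict γ) :=
  γ_cont.continuousOn.measurableEmbedding measurableSet_Ioo γ_inj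

theorem ex_meas (u v : ℝ) : Measurable (ex u v) :=
  emb.measurable_extend (by fun_prop) measurable_const

theorem ex_γ (u v : ℝ) {t : ℝ} (ht : t ∈ Ioo (0 : ℝ) 1) : ex u v (γ t) = u * t :=
  emb.injective.extend_apply _ _ ⟨t, ht⟩

theorem ex_cases (x : E) :
    (∃ t ∈ Ioo (0 : ℝ) 1, x = γ t) ∨ ∀ u v, ex u v x = v := by
  by_cases h : ∃ t : Ioo (0 : ℝ) 1, (Ioo (0 : ℝ) 1).domRestrict γ t = x
  · obtain ⟨t, rfl⟩ := h
    exact Or.inl ⟨t, t.2, rfl⟩
  · exact Or.inr fun u v => Function.extend_apply' _ _ _ h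

theorem ex_int (u v : ℝ) : Integrable (ex u v) ρ := by
  refine Integrable.of_bound (ex_meas u v).aestronglyMeasurable |u| (aeρ ?_ fun t ht => ?_)
  · exact measurableSet_le (ex_meas u v).norm measurable_const
  · rw [ex_γ u v ht, Real.norm_eq_abs, abs_mul, abs_of_pos ht.1]
    exact mul_le_of_le_one_right (abs_nonneg _) ht.2.le

/-- With the cost `|x - y|^(4/3)` on `ℝ⁴` there is a probability measure `ρ = μ` with connected
support, satisfying (H), and two optimal dual pairs that do not differ by a constant. -/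
theorem result : ∃ ρ μ : Measure E, IsProbabilityMeasure ρ ∧ IsProbabilityMeasure μ ∧
    HypH ρ μ cost ∧ IsConnected ρ.support ∧
    ∃ φ₀ ψ₀ φ₁ ψ₁ : E → ℝ, Opt ρ μ cost φ₀ ψ₀ ∧ Opt ρ μ cost φ₁ ψ₁ ∧
      ¬ ∃ l : ℝ, ∀ᵐ x ∂ρ, φ₀ x - φ₁ x = l := by
  refine ⟨ρ, ρ, inferInstance, inferInstance, ⟨?_, ?_, ?_⟩, ?_, fun _ => 0, fun _ => 0,
    ex (1 / 1296) 0, ex (-(1 / 1296)) (-(1 / 1296)), ?_, ?_, ?_⟩
  · have := isCompact_Icc.image γ_cont (s := Icc 0 1)
    exact this.isBounded.subset (supp2 this.isClosed (image_mono Ioo_subset_Icc_self))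
  · exact (contDiff_fst.sub contDiff_snd).norm_rpow (by norm_num)
  · have hc : Continuous fun x : E => (2 * ‖x‖) ^ (4 / 3 : ℝ) :=
      (continuous_const.mul continuous_norm).rpow_const fun _ => Or.inr (by norm_num)
    refine ⟨_, _, hc.upperSemicontinuous, hc.upperSemicontinuous, int_cont hc, int_cont hc,
      fun x y => ?_⟩
    rw [abs_of_nonneg (cost_nonneg _)]
    have h1 := norm_sub_le x y
    rcases le_total ‖x‖ ‖y‖ with h | h
    · exact (Real.rpow_le_rpow (norm_nonneg _) (show ‖x - y‖ ≤ 2 * ‖y‖ by linarith)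
        (by norm_num)).trans (le_add_of_nonneg_left (by positivity))
    · exact (Real.rpow_le_rpow (norm_nonneg _) (show ‖x - y‖ ≤ 2 * ‖x‖ by linarith)
        (by norm_num)).trans (le_add_of_nonneg_right (by positivity))
  · exact ((isConnected_Ioo zero_lt_one).image γ γ_cont.continuousOn).subset_closure supp1
      (supp2 isClosed_closure subset_closure)
  · exact opt_of ⟨integrable_const _, integrable_const _, fun x y => by
      simpa using cost_nonneg _⟩ (by simp)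
  · refine opt_of ⟨ex_int _ _, ex_int _ _, fun x y => ?_⟩ (aeρ ?_ fun t ht => ?_)
    · have h0 := cost_nonneg (x, y)
      rcases ex_cases x with ⟨t, ht, rfl⟩ | hx <;> rcases ex_cases y with ⟨s, hs, rfl⟩ | hy
      · rw [ex_γ _ _ ht, ex_γ _ _ hs]
        linarith [γ_low t s (ab ht hs), le_abs_self (t - s)]
      · rw [ex_γ _ _ ht, hy]; linarith [ht.2]
      · rw [ex_γ _ _ hs, hx]; linarith [hs.1]
      · rw [hx, hy]; linarith
    · exact measurableSet_eq_fun ((ex_meas _ _).add (ex_meas _ _)) measurable_const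
    · rw [ex_γ _ _ ht, ex_γ _ _ ht]; ring
  · rintro ⟨l, hl⟩
    have h1 := ae_of_ae_map γ_cont.measurable.aemeasurable hl
    have h2 : ∀ᵐ t ∂(volume.restrict (Ioo (0 : ℝ) 1)), t ≠ -1296 * l := Measure.ae_ne _ _
    have h3 : ∀ᵐ t ∂(volume.restrict (Ioo (0 : ℝ) 1)), t ∈ Ioo (0 : ℝ) 1 :=
      ae_restrict_mem measurableSet_Ioo
    obtain ⟨t, a1, a2, a3⟩ := (h1.and (h2.and h3)).exists
    rw [ex_γ _ _ a3] at a1
    exact a2 (by linarith)

end Pool.Agent.Results.MP_ff06a2_an.Counter
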